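import Pool.Agent.W910.Hull.Tower

/-!
# A monotone Borel hull operation on the measurable sets under the continuum hypothesis
-/

set_option autoImplicit false

namespace Pool.Agent.Q220.MH

open Cardinal MeasureTheory Set Metric Filter Topology Pool.Agent.W910.Hull

/-- The points at which the lower density of `A` along the radii `1/(n+1)` is at least one
half. -/
def Dn (A : Set ℝ) : Set ℝ :=
  {x | ∃ N : ℕ, ∀ n : ℕ, N ≤ n →
    volume (closedBall x (1 / ((n : ℝ) + 1))) / 2 ≤ volume (A ∩ closedBall x (1 / ((n : ℝ) + 1)))}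

theorem dn_mono {A B : Set ℝ} (h : A ⊆ B) : Dn A ⊆ Dn B := by
  rintro x ⟨N, hN⟩
  exact ⟨N, fun n hn => (hN n hn).trans (measure_mono (inter_subset_inter_left _ h))⟩

theorem dn_congr {A B : Set ℝ} (h : A =ᵐ[volume] B) : Dn A = Dn B := by
  have h1 : ∀ S : Set ℝ, volume (A ∩ S) = volume (B ∩ S) := fun S =>
    measure_congr (h.inter (ae_eq_refl S))
  ext x
  simp only [Dn, mem_ofPred_eq, h1]

theorem measurable_ball_inter {B : Set ℝ} (hB : MeasurableSet B) (r : ℝ) :
    Measurable fun x : ℝ => volume (B ∩ closedBall x r) := by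
  have h1 : MeasurableSet {p : ℝ × ℝ | p.2 ∈ B ∧ dist p.2 p.1 ≤ r} := by
    apply MeasurableSet.inter
    · exact measurable_snd hB
    · exact measurableSet_le (measurable_snd.dist measurable_fst) measurable_const
  exact measurable_measure_prodMk_left h1

theorem dn_measurable_of {B : Set ℝ} (hB : MeasurableSet B) : MeasurableSet (Dn B) := by
  have : Dn B = ⋃ N : ℕ, ⋂ n : ℕ, ⋂ (_ : N ≤ n), {x : ℝ |
      volume (closedBall x (1 / ((n : ℝ) + 1))) / 2 ≤
        volume (B ∩ closedBall x (1 / ((n : ℝ) + 1)))} := by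
    ext x
    simp [Dn]
  rw [this]
  refine MeasurableSet.iUnion fun N => MeasurableSet.iInter fun n => MeasurableSet.iInter fun _ => ?_
  refine measurableSet_le ?_ (measurable_ball_inter hB _)
  have h2 := measurable_ball_inter MeasurableSet.univ (1 / ((n : ℝ) + 1))
  simp only [univ_inter] at h2
  exact h2.div_const 2

theorem dn_measurable {A : Set ℝ} (hA : NullMeasurableSet A volume) : MeasurableSet (Dn A) := by
  rw [← dn_congr hA.toMeasurable_ae_eq]
  exact dn_measurable_of (measurableSet_toMeasurable _ _)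

theorem dn_ae_of {B : Set ℝ} (hB : MeasurableSet B) : (Dn B : Set ℝ) =ᵐ[volume] B := by
  have h1 := Besicovitch.ae_tendsto_measure_inter_div_of_measurableSet (volume : Measure ℝ) hB
  have hr : Tendsto (fun n : ℕ => 1 / ((n : ℝ) + 1)) atTop (𝓝[>] 0) := by
    rw [tendsto_nhdsWithin_iff]
    exact ⟨tendsto_one_div_add_atTop_nhds_zero_nat,
      Eventually.of_forall fun n => mem_Ioi.2 Nat.one_div_pos_of_nat⟩
  have hpos : ∀ (x : ℝ) (n : ℕ), volume (closedBall x (1 / ((n : ℝ) + 1))) ≠ 0 := fun x n => by
    rw [Real.volume_closedBall]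
    have : (0 : ℝ) < 1 / ((n : ℝ) + 1) := Nat.one_div_pos_of_nat
    simpa using this
  have hfin : ∀ (x : ℝ) (n : ℕ), volume (closedBall x (1 / ((n : ℝ) + 1))) ≠ ⊤ := fun x n => by
    rw [Real.volume_closedBall]
    exact ENNReal.ofReal_ne_top
  filter_upwards [h1] with x hx
  have hx2 := hx.comp hr
  apply propext
  by_cases hxB : x ∈ B
  · refine iff_of_true ?_ hxB
    rw [indicator_of_mem hxB] at hx2
    have h3 : ∀ᶠ n : ℕ in atTop, (1 / 2 : ENNReal) <
        volume (B ∩ closedBall x (1 / ((n : ℝ) + 1))) /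
          volume (closedBall x (1 / ((n : ℝ) + 1))) := by
      refine hx2.eventually (lt_mem_nhds ?_)
      simp
    obtain ⟨N, hN⟩ := eventually_atTop.1 h3
    refine ⟨N, fun n hn => ?_⟩
    have h4 := (hN n hn).le
    rw [ENNReal.le_div_iff_mul_le (Or.inl (hpos x n)) (Or.inl (hfin x n))] at h4
    refine le_trans (le_of_eq ?_) h4
    rw [ENNReal.div_eq_inv_mul, one_div (2 : ENNReal)]
  · refine iff_of_false ?_ hxB
    rw [indicator_of_notMem hxB] at hx2
    rintro ⟨N, hN⟩
    have h3 : ∀ᶠ n : ℕ in atTop, 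
        volume (B ∩ closedBall x (1 / ((n : ℝ) + 1))) /
          volume (closedBall x (1 / ((n : ℝ) + 1))) < (1 / 2 : ENNReal) := by
      refine hx2.eventually (gt_mem_nhds ?_)
      simp
    obtain ⟨n, hn1, hn2⟩ := (h3.and (eventually_ge_atTop N)).exists
    have h4 := hN n hn2
    rw [ENNReal.div_lt_iff (Or.inl (hpos x n)) (Or.inl (hfin x n))] at hn1
    refine absurd (lt_of_le_of_lt h4 hn1) ?_
    rw [ENNReal.div_eq_inv_mul, one_div (2 : ENNReal)]
    exact lt_irrefl _

theorem dn_ae {A : Set ℝ} (hA : NullMeasurableSet A volume) : (Dn A : Set ℝ) =ᵐ[volume] A := by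
  rw [← dn_congr hA.toMeasurable_ae_eq]
  exact (dn_ae_of (measurableSet_toMeasurable _ _)).trans hA.toMeasurable_ae_eq

/-- Under the continuum hypothesis the Borel sets can be listed in type `ω₁`. -/
theorem exists_list (hc : Cardinal.continuum.{0} = ℵ₁) :
    ∃ B : Om1 → Set ℝ, (∀ i, MeasurableSet (B i)) ∧ ∀ N : Set ℝ, MeasurableSet N → ∃ i, B i = N := by
  classical
  have h1 : #{N : Set ℝ // MeasurableSet N} ≤ #Om1 := by
    rw [mk_Om1, ← hc]
    have h3 := MeasurableSpace.cardinal_measurableSet_le_continuum (α := ℝ)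
      (s := MeasurableSpace.countableGeneratingSet ℝ)
      (Set.Countable.le_aleph0 (MeasurableSpace.countable_countableGeneratingSet) |>.trans
        Cardinal.aleph0_le_continuum)
    have h4 : MeasurableSpace.generateFrom (MeasurableSpace.countableGeneratingSet ℝ) =
      (inferInstance : MeasurableSpace ℝ) := MeasurableSpace.generateFrom_countableGeneratingSet
    rw [h4] at h3
    exact h3
  obtain ⟨e⟩ := h1
  have : Nonempty {N : Set ℝ // MeasurableSet N} := ⟨⟨∅, by simp⟩⟩
  refine ⟨fun i => (Function.invFun e i).1, fun i => (Function.invFun e i).2, fun N hN => ?_⟩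
  obtain ⟨i, hi⟩ := Function.invFun_surjective e.injective ⟨N, hN⟩
  exact ⟨i, congrArg Subtype.val hi⟩

/-- Under the continuum hypothesis there is a monotone Borel hull operation on the Lebesgue
measurable sets. -/
theorem hull_of_ch (hc : Cardinal.continuum.{0} = ℵ₁) :
    ∃ ψ : Set ℝ → Set ℝ, (∀ A, NullMeasurableSet A volume → MeasurableSet (ψ A) ∧ A ⊆ ψ A ∧
      volume (ψ A \ A) = 0) ∧
      ∀ A B, NullMeasurableSet A volume → NullMeasurableSet B volume → A ⊆ B → ψ A ⊆ ψ B := by
  classical
  obtain ⟨B, hB, hBs⟩ := exists_list hc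
  -- the tower
  let E : Om1 → Set ℝ := fun i => if volume (B i) = 0 then B i else ∅
  have hEm : ∀ i, MeasurableSet (E i) := fun i => by
    simp only [E]
    split_ifs
    · exact hB i
    · exact MeasurableSet.empty
  have hE0 : ∀ i, volume (E i) = 0 := fun i => by
    simp only [E]
    split_ifs with h
    · exact h
    · exact measure_empty
  have hEs : ∀ N : Set ℝ, volume N = 0 → ∃ i, N ⊆ E i := fun N hN => by
    obtain ⟨i, hi⟩ := hBs (toMeasurable volume N) (measurableSet_toMeasurable _ _)
    refine ⟨i, ?_⟩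
    have h0 : volume (B i) = 0 := by rw [hi, measure_toMeasurable, hN]
    simp only [E, if_pos h0, hi]
    exact subset_toMeasurable _ _
  -- the first index of a point
  have hx : ∀ x : ℝ, {i | x ∈ E i}.Nonempty := fun x => by
    obtain ⟨i, hi⟩ := hEs {x} (by simp)
    exact ⟨i, hi rfl⟩
  let b : ℝ → Om1 := fun x => (wellFounded_lt (α := Om1)).min {i | x ∈ E i} (hx x)
  have hb : ∀ x, x ∈ E (b x) := fun x => WellFounded.min_mem _ {i | x ∈ E i} (hx x)
  have hbmin : ∀ x i, i < b x → x ∉ E i := fun x i hi h =>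
    WellFounded.not_lt_min (wellFounded_lt (α := Om1)) {i | x ∈ E i} h hi
  -- good indices
  let Good : Set ℝ → Om1 → Prop := fun M i =>
    (M \ Dn M ⊆ ⋃ j ∈ Iio i, E j) ∧ ∃ j, j < i ∧ Dn M = B j
  let ψ : Set ℝ → Set ℝ := fun M =>
    {x | ∀ M', NullMeasurableSet M' volume → M ⊆ M' → Good M' (b x) → x ∈ Dn M'}
  have hgood : ∀ M, NullMeasurableSet M volume → ∃ r, ∀ i, r < i → Good M i := by
    intro M hM
    have h1 : volume (M \ Dn M) = 0 := by
      have := (dn_ae hM)
      rw [← ae_le_set]
      exact this.symm.le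
    obtain ⟨i, hi⟩ := hEs _ h1
    obtain ⟨j, hj⟩ := hBs _ (dn_measurable hM)
    refine ⟨max i j, fun k hk => ⟨hi.trans ?_, j, (le_max_right i j).trans_lt hk, hj.symm⟩⟩
    exact subset_biUnion_of_mem (u := E) (mem_Iio.2 ((le_max_left i j).trans_lt hk))
  refine ⟨ψ, fun M hM => ?_, ?_⟩
  · obtain ⟨r, hr⟩ := hgood M hM
    have hNc : (Iic r).Countable := countable_Iic r
    have hNm : MeasurableSet (⋃ j ∈ Iic r, E j) := MeasurableSet.biUnion hNc fun j _ => hEm j
    have hN0 : volume (⋃ j ∈ Iic r, E j) = 0 := (measure_biUnion_null_iff hNc).2 fun j _ => hE0 j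
    have hout : ∀ x, x ∉ (⋃ j ∈ Iic r, E j) → (x ∈ ψ M ↔ x ∈ Dn M) := by
      intro x hxr
      have hbx : r < b x := by
        by_contra h
        exact hxr (mem_biUnion (mem_Iic.2 (not_lt.1 h)) (hb x))
      constructor
      · intro h
        exact h M hM Subset.rfl (hr _ hbx)
      · intro h M' _ hMM' _
        exact dn_mono hMM' h
    have hMψ : M ⊆ ψ M := by
      intro x hxM M' _ hMM' hg
      by_contra hxD
      have h2 := hg.1 ⟨hMM' hxM, hxD⟩
      simp only [mem_iUnion, mem_Iio, exists_prop] at h2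
      obtain ⟨j, hj, hxj⟩ := h2
      exact hbmin x j hj hxj
    refine ⟨?_, hMψ, ?_⟩
    · -- Borel
      let X : Om1 → Set ℝ := fun i => E i \ ⋃ j ∈ Iio i, E j
      have hXm : ∀ i, MeasurableSet (X i) := fun i => (hEm i).diff
        (MeasurableSet.biUnion ((countable_Iic i).mono Iio_subset_Iic_self) fun j _ => hEm j)
      have hXb : ∀ i x, x ∈ X i ↔ b x = i := by
        intro i x
        constructor
        · rintro ⟨h1, h2⟩
          rcases lt_trichotomy (b x) i with h | h | h
          · exact absurd (mem_biUnion (mem_Iio.2 h) (hb x)) h2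
          · exact h
          · exact absurd h1 (hbmin x i h)
        · rintro rfl
          refine ⟨hb x, fun h => ?_⟩
          simp only [mem_iUnion, mem_Iio, exists_prop] at h
          obtain ⟨j, hj, hxj⟩ := h
          exact hbmin x j hj hxj
      let T : Om1 → Set Om1 := fun i => {j | j < i ∧ ∃ M', NullMeasurableSet M' volume ∧ M ⊆ M' ∧
        Good M' i ∧ Dn M' = B j}
      have hTc : ∀ i, (T i).Countable := fun i =>
        (countable_Iic i).mono fun j hj => mem_Iic.2 hj.1.le
      have heq : ψ M = (Dn M \ ⋃ j ∈ Iic r, E j) ∪ ⋃ i ∈ Iic r, X i ∩ ⋂ j ∈ T i, B j := by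
        ext x
        by_cases hxr : x ∈ (⋃ j ∈ Iic r, E j)
        · have hbr : b x ≤ r := by
            simp only [mem_iUnion, mem_Iic, exists_prop] at hxr
            obtain ⟨j, hj, hxj⟩ := hxr
            by_contra h
            exact hbmin x j (hj.trans_lt (not_le.1 h)) hxj
          constructor
          · intro h
            right
            refine mem_biUnion (mem_Iic.2 hbr) ⟨(hXb _ _).2 rfl, ?_⟩
            simp only [mem_iInter]
            rintro j ⟨_, M', h1, h2, h3, h4⟩
            rw [← h4]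
            exact h M' h1 h2 h3
          · rintro (h | h)
            · exact absurd hxr h.2
            · simp only [mem_iUnion, mem_Iic, exists_prop] at h
              obtain ⟨i, hi, hxi, hxB⟩ := h
              have hbi : b x = i := (hXb i x).1 hxi
              subst hbi
              intro M' h1 h2 h3
              obtain ⟨j, hj, hDj⟩ := h3.2
              rw [hDj]
              simp only [mem_iInter] at hxB
              exact hxB j ⟨hj, M', h1, h2, h3, hDj⟩
        · rw [hout x hxr]
          constructor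
          · intro h
            exact Or.inl ⟨h, hxr⟩
          · rintro (h | h)
            · exact h.1
            · simp only [mem_iUnion, mem_Iic, exists_prop] at h
              obtain ⟨i, hi, hxi, _⟩ := h
              exact absurd (mem_biUnion (mem_Iic.2 hi) hxi.1) hxr
      rw [heq]
      refine ((dn_measurable hM).diff hNm).union ?_
      refine MeasurableSet.biUnion hNc fun i _ => (hXm i).inter ?_
      exact MeasurableSet.biInter (hTc i) fun j _ => hB j
    · have h3 : ψ M \ M ⊆ (Dn M \ M) ∪ ⋃ j ∈ Iic r, E j := by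
        rintro x ⟨h1, h2⟩
        by_cases hxr : x ∈ (⋃ j ∈ Iic r, E j)
        · exact Or.inr hxr
        · exact Or.inl ⟨(hout x hxr).1 h1, h2⟩
      refine measure_mono_null h3 (measure_union_null ?_ hN0)
      rw [← ae_le_set]
      exact (dn_ae hM).le
  · intro M M'' _ _ hMM'' x hx M' h1 h2 h3
    exact hx M' h1 (hMM''.trans h2) h3

end Pool.Agent.Q220.MH
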